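import Pool.Agent.Helper98.GX.St3

/-!
# Module SIG of project GX (MP_140278_ag): the function field is rational
-/

set_option autoImplicit false

open scoped BigOperators

namespace Pool.Agent.Helper65.GX

open Pool.Agent.Helper98.GX
open Pool.Agent.Helper53.CX (DivVal LinSys IsNefCartier)

private theorem ord_one {K : Type} [Field K] [Algebra ℂ K] (v : DivVal K) : v.ord 1 = 0 := by
  have h := v.ord_mul 1 1 one_ne_zero one_ne_zero
  rw [mul_one] at h
  omega

private theorem ord_pow {K : Type} [Field K] [Algebra ℂ K] (v : DivVal K) (f : K) (hf : f ≠ 0)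
    (m : ℕ) : v.ord (f ^ m) = m * v.ord f := by
  induction m with
  | zero => simp [ord_one v]
  | succ m ih =>
    rw [pow_succ, v.ord_mul _ _ (pow_ne_zero m hf) hf, ih]
    push_cast
    ring

private theorem ord_prod {K : Type} [Field K] [Algebra ℂ K] (v : DivVal K) {ι : Type}
    (s : Finset ι) (f : ι → K) (hf : ∀ i ∈ s, f i ≠ 0) :
    v.ord (∏ i ∈ s, f i) = ∑ i ∈ s, v.ord (f i) := by
  classical
  induction s using Finset.induction_on with
  | empty => simp [ord_one v]
  | insert a s ha ih =>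
    rw [Finset.prod_insert ha, Finset.sum_insert ha, v.ord_mul _ _
      (hf a (Finset.mem_insert_self a s))
      (Finset.prod_ne_zero_iff.mpr fun i hi => hf i (Finset.mem_insert_of_mem hi)),
      ih fun i hi => hf i (Finset.mem_insert_of_mem hi)]

/-- the extension of `X j ↦ z j` to the field of fractions -/
private theorem exists_hom {K : Type} [Field K] [Algebra ℂ K] {n : ℕ} (z : Fin n → K)
    (hz : AlgebraicIndependent ℂ z) :
    ∃ σ : Pool.Agent.Helper53.CX.Kn n →ₐ[ℂ] K, ∀ j, σ (Pool.Agent.Helper53.CX.x j) = z j := by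
  have hinj : Function.Injective (MvPolynomial.aeval (R := ℂ) z) := hz
  refine ⟨IsFractionRing.liftAlgHom (K := Pool.Agent.Helper53.CX.Kn n)
    (g := MvPolynomial.aeval (R := ℂ) z) hinj, fun j => ?_⟩
  unfold Pool.Agent.Helper53.CX.x
  rw [IsFractionRing.liftAlgHom_apply]
  rw [IsFractionRing.lift_algebraMap]
  simp

theorem hSIG (hFSP : StFSP) (hOUR : StOUR) : StSIG := by
  classical
  intro K _ _ V r B n L Fr β L' e hc
  obtain ⟨σ, hσ⟩ := exists_hom L'.z L'.basis.1
  obtain ⟨h1, h2⟩ := hOUR K V r B n L Fr β hc.base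
  -- the algebra of the chart is in the range
  have hA : ∀ a, Fr.g a / Fr.g (β (Fr.bl a)) ∈ σ.range := by
    intro a
    by_cases ha : a = β (Fr.bl a)
    · rw [← ha, div_self (Fr.ne a)]
      exact one_mem _
    · obtain ⟨j, hj⟩ := (hc.range a).2 ha
      refine ⟨Pool.Agent.Helper53.CX.x j, ?_⟩
      have := hσ j
      rw [hc.z_eq j, hj] at this
      exact this
  have hAle : Algebra.adjoin ℂ (Set.range fun a => Fr.g a / Fr.g (β (Fr.bl a))) ≤ σ.range := by
    apply Algebra.adjoin_le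
    rintro _ ⟨a, rfl⟩
    exact hA a
  have hsurj : Function.Surjective σ := by
    intro f
    by_cases hf : f = 0
    · exact ⟨0, by rw [map_zero, hf]⟩
    have hfin := hFSP K V f hf
    let P : Finset (DivVal K) :=
      hfin.toFinset.filter fun q => (∀ k, q ≠ Fr.pr (β k)) ∧ q.ord f < 0
    have hP : ∀ q, q ∈ P ↔ q ∈ V.primes ∧ (∀ k, q ≠ Fr.pr (β k)) ∧ q.ord f < 0 := by
      intro q
      simp only [P, Finset.mem_filter, Set.Finite.mem_toFinset, Set.mem_ofPred_eq]
      constructor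
      · rintro ⟨⟨ha, -⟩, hb, hc⟩
        exact ⟨ha, hb, hc⟩
      · rintro ⟨ha, hb, hc⟩
        exact ⟨⟨ha, ne_of_lt hc⟩, hb, hc⟩
    have hex : ∀ q : DivVal K, ∃ u : K, u ≠ 0 ∧ (q ∈ P → q.ord u = 1 ∧
        ∀ q' ∈ V.primes, (∀ k, q' ≠ Fr.pr (β k)) → q' ≠ q → q'.ord u = 0) := by
      intro q
      by_cases hq : q ∈ P
      · obtain ⟨ha, hb, -⟩ := (hP q).1 hq
        obtain ⟨u, φ, hu, -, -, -, h3, h4, -⟩ := h2 q ha hb
        exact ⟨u, hu, fun _ => ⟨h3, h4⟩⟩
      · exact ⟨1, one_ne_zero, fun h => absurd h hq⟩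
    choose u hu0 hu1 using hex
    let b : K := ∏ q ∈ P, u q ^ (-q.ord f).toNat
    have hb0 : b ≠ 0 := Finset.prod_ne_zero_iff.mpr fun q _ => pow_ne_zero _ (hu0 q)
    have hbord : ∀ q' ∈ V.primes, (∀ k, q' ≠ Fr.pr (β k)) →
        q'.ord b = if q' ∈ P then -q'.ord f else 0 := by
      intro q' h3 h4
      have e1 : q'.ord b = ∑ q ∈ P, q'.ord (u q ^ (-q.ord f).toNat) :=
        ord_prod q' P _ fun q _ => pow_ne_zero _ (hu0 q)
      have e2 : ∀ q ∈ P, q'.ord (u q ^ (-q.ord f).toNat) = if q = q' then -q'.ord f else 0 := by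
        intro q hq
        rw [ord_pow q' _ (hu0 q)]
        by_cases hqq : q = q'
        · subst hqq
          rw [if_pos rfl, (hu1 q hq).1, mul_one]
          have := ((hP q).1 hq).2.2
          omega
        · rw [if_neg hqq, (hu1 q hq).2 q' h3 h4 (Ne.symm hqq), mul_zero]
      rw [e1, Finset.sum_congr rfl e2, Finset.sum_ite_eq' P q' fun _ => -q'.ord f]
    have hbr : b ∈ σ.range := by
      apply hAle
      apply h1 b hb0
      intro q' h3 h4
      rw [hbord q' h3 h4]
      by_cases hq : q' ∈ P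
      · rw [if_pos hq]
        have := ((hP q').1 hq).2.2
        omega
      · rw [if_neg hq]
    have hfbr : f * b ∈ σ.range := by
      apply hAle
      apply h1 (f * b) (mul_ne_zero hf hb0)
      intro q' h3 h4
      rw [q'.ord_mul f b hf hb0, hbord q' h3 h4]
      by_cases hq : q' ∈ P
      · rw [if_pos hq]
        omega
      · rw [if_neg hq]
        have : ¬ q'.ord f < 0 := fun h => hq ((hP q').2 ⟨h3, h4, h⟩)
        omega
    obtain ⟨y1, hy1⟩ := hbr
    obtain ⟨y2, hy2⟩ := hfbr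
    refine ⟨y2 / y1, ?_⟩
    have hy1' : σ y1 = b := hy1
    have hy2' : σ y2 = f * b := hy2
    rw [map_div₀, hy1', hy2', mul_div_cancel_right₀ f hb0]
  have hbij : Function.Bijective σ := ⟨σ.toRingHom.injective, hsurj⟩
  exact ⟨AlgEquiv.ofBijective σ hbij, fun j => hσ j⟩

end Pool.Agent.Helper65.GX
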